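import Pool.Agent.PQP.StmtsN

/-!
# Squad PQP, row HYP (helper98)
-/

set_option autoImplicit false

open scoped InnerProductSpace Topology ContDiff Manifold
open MeasureTheory Filter Set

noncomputable section

namespace Pool.Agent.PQP.H98

open Pool.Agent.Helper42_Paneitz Pool.Agent.Helper82_Vir Pool.Agent.FLX

theorem isClosed_cap (z : S4) (u : ℝ) : IsClosed (cap z u) := by
  unfold cap
  refine isClosed_le ?_ continuous_const
  exact continuous_const.sub (continuous_const.inner continuous_subtype_val)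

theorem norm_An_le (w N : S4) : ‖An (w : E5) (N : E5)‖ ≤ 2 := by
  refine ContinuousLinearMap.opNorm_le_bound _ (by norm_num) fun v => ?_
  rw [An_apply]
  refine (norm_sub_le _ _).trans ?_
  rw [norm_smul, norm_smul, S4_norm, S4_norm, mul_one, mul_one, Real.norm_eq_abs,
    Real.norm_eq_abs]
  have h1 := abs_real_inner_le_norm (N : E5) v
  have h2 := abs_real_inner_le_norm (w : E5) v
  rw [S4_norm, one_mul] at h1 h2
  linarith

theorem norm_sub_le_two (w N : S4) : ‖(N : E5) - (w : E5)‖ ≤ 2 := by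
  refine (norm_sub_le _ _).trans ?_
  rw [S4_norm, S4_norm]
  norm_num

/-- the centre is far from the points of `cap N ρ` -/
theorem far_of_cap {N w x : S4} {ε₁ ρ : ℝ} (h1 : ε₁ ≤ 1 - ⟪(N : E5), (w : E5)⟫_ℝ)
    (hρ : ρ ≤ ε₁ / 8) (hx : 1 - ⟪(N : E5), (x : E5)⟫_ℝ ≤ ρ) :
    ε₁ / 4 ≤ 1 - ⟪(w : E5), (x : E5)⟫_ℝ := by
  have e1 := norm_sub_sq_S4 N w
  have e2 := norm_sub_sq_S4 N x
  have e3 := norm_sub_sq_S4 w x
  have tri : ‖(N : E5) - (w : E5)‖ ≤ ‖(N : E5) - (x : E5)‖ + ‖(w : E5) - (x : E5)‖ := by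
    have := norm_sub_le_norm_sub_add_norm_sub (N : E5) (x : E5) (w : E5)
    rw [norm_sub_rev (x : E5) (w : E5)] at this
    exact this
  have n1 := norm_nonneg ((N : E5) - (w : E5))
  have n2 := norm_nonneg ((N : E5) - (x : E5))
  have n3 := norm_nonneg ((w : E5) - (x : E5))
  have h0 : 0 ≤ 1 - ⟪(N : E5), (x : E5)⟫_ℝ := by linarith [inner_le_one N x]
  nlinarith [sq_nonneg (‖(N : E5) - (x : E5)‖ - ‖(w : E5) - (x : E5)‖)]

theorem hyp (hNRX : NrxStmt) (hSPL : SplStmt) (hTCF : TcfStmt) (hHYF : HyfStmt) (hPSN : PsnStmt)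
    (hGRS : GrsStmt) : HypStmt := by
  obtain ⟨c4, hc4, hN⟩ := hNRX
  refine ⟨c4, hc4, fun ψ N hψ ε₁ c hε₁ hc => ?_⟩
  obtain ⟨c₀, ρ₀, C₀, hc₀, hρ₀, hρ₀1, hC₀, hp1, hp2, hp3⟩ := hPSN ψ N hψ
  have hsm : Sm ψ := hψ.1
  obtain ⟨B, hB, hBT⟩ := hTCF ψ hsm 2 (by norm_num)
  obtain ⟨Cg, hCg, hG⟩ := hGRS ψ hsm
  -- the choice of `ρ`
  set δ : ℝ := ε₁ * c₀ / 8 / C₀ with hδ
  have hδ0 : 0 < δ := by positivity
  set ρ : ℝ := min ρ₀ (min (ε₁ / 8) (δ ^ 2 / 2)) with hρdef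
  have hρ : 0 < ρ := by
    refine lt_min hρ₀ (lt_min (by positivity) (by positivity))
  have hρ1 : ρ ≤ ρ₀ := min_le_left _ _
  have hρ2 : ρ ≤ ε₁ / 8 := (min_le_right _ _).trans (min_le_left _ _)
  have hρ3 : ρ ≤ δ ^ 2 / 2 := (min_le_right _ _).trans (min_le_right _ _)
  set c₆ : ℝ := ε₁ * c₀ / 16 with hc₆def
  have hc₆ : 0 < c₆ := by positivity
  refine ⟨ρ, c₆, hρ, hρ2, hc₆, fun ε hε => ?_⟩
  obtain ⟨T1, hT1, hS⟩ := hSPL ψ N hψ ε₁ c ρ c₆ 2 hε₁ hc hρ hρ2 hc₆ (by norm_num)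
  obtain ⟨T2, hT2, hX⟩ := hN ψ hsm N ε₁ c B (ε / 2) hε₁ hc hB (by positivity)
  -- `exp (-(c t)) ≤ 1 / t` and `C / √t ≤ ε / (2 c4)` for large `t`
  have lim1 : Tendsto (fun t : ℝ => t * Real.exp (-(c * t))) atTop (𝓝 0) := by
    have h := Real.tendsto_pow_mul_exp_neg_atTop_nhds_zero 1
    have h2 := h.comp (tendsto_id.const_mul_atTop hc)
    have h3 := h2.const_mul (1 / c)
    rw [mul_zero] at h3
    refine h3.congr fun t => ?_
    simp only [Function.comp, id, pow_one]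
    field_simp
  have lim2 : Tendsto (fun t : ℝ => Cg / √t) atTop (𝓝 0) :=
    tendsto_const_nhds.div_atTop Real.tendsto_sqrt_atTop
  have ev1 := lim1.eventually (ge_mem_nhds (show (0 : ℝ) < 1 by norm_num))
  have ev2 := lim2.eventually (ge_mem_nhds (show (0 : ℝ) < ε / (2 * c4) by positivity))
  obtain ⟨T3', hT3⟩ := eventually_atTop.1 (ev1.and ev2)
  refine ⟨max (max T1 T2) (max T3' 1), ?_, fun t f w lam ht hb => ?_⟩
  · exact lt_of_lt_of_le (by norm_num) ((le_max_right T3' 1).trans (le_max_right _ _))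
  have ht1 : T1 ≤ t := ((le_max_left _ _).trans (le_max_left _ _)).trans ht
  have ht2 : T2 ≤ t := ((le_max_right _ _).trans (le_max_left _ _)).trans ht
  have ht3 : T3' ≤ t := ((le_max_left _ _).trans (le_max_right _ _)).trans ht
  have ht4 : 1 ≤ t := ((le_max_right _ _).trans (le_max_right _ _)).trans ht
  have ht0 : 0 < t := by linarith
  obtain ⟨hsol, hl0, hl1, hbal, hkap, hNw, hmas⟩ := id hb
  obtain ⟨hd, -⟩ := id hsol
  obtain ⟨hfc, hf0, hf1⟩ := hd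
  set κ : ℝ := sq (lam • (w : E5)) with hκ
  have hκ0 : 0 ≤ κ := Real.sqrt_nonneg _
  set γ : ℝ := ‖gd ψ w‖ with hγ
  have hγ0 : 0 ≤ γ := norm_nonneg _
  -- the field
  set a : E5 := (N : E5) - (w : E5) with ha
  set A : E5 →L[ℝ] E5 := An (w : E5) (N : E5) with hA
  have ha2 : ‖a‖ ≤ 2 := norm_sub_le_two w N
  have hA2 : ‖A‖ ≤ 2 := norm_An_le w N
  have hsk : ∀ v, ⟪A v, v⟫_ℝ = 0 := fun v => An_skew _ _ v
  obtain ⟨hy1, hy2, hy3, hy4⟩ := hHYF ψ N w hsm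
  obtain ⟨hgs, hgT⟩ := hBT a A ha2 hA2
  set g : S4 → ℝ := fun x => dd ψ x (cf a A x) with hg
  have hgc : Continuous g := continuous_of_sm hgs
  -- the integral over the small cap at `w`
  have hXg := hX t f w lam ht2 hb g (2 * γ) hgs hgT hy3
  have hgw : g w = 0 := hy2
  rw [hgw] at hXg
  have e0 : (fun x : S4 => (g x - 0) * f x) = fun x => g x * f x := by
    funext x; rw [sub_zero]
  rw [e0] at hXg
  -- the gradient at the centre
  have hgr : γ ≤ Cg / √t := by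
    refine hG t (Real.exp (-(c * t))) w f ht0 ?_ hsol ?_
    · have h := (hT3 t ht3).1
      rw [le_div_iff₀ ht0, mul_comm]
      exact h
    · linarith
  have hgr2 : c4 * γ ≤ ε / 2 := by
    have h := hgr.trans (hT3 t ht3).2
    rw [le_div_iff₀ (by positivity)] at h
    linarith
  -- the integral over the cap at `N`
  have hint : Integrable (fun x => g x * f x) sig := integrable_cont (hgc.mul hfc)
  have hint2 : Integrable (fun x : S4 => (1 - ⟪(N : E5), (x : E5)⟫_ℝ) * f x) sig :=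
    integrable_cont ((continuous_const.sub (continuous_const.inner continuous_subtype_val)).mul hfc)
  have hGN : ∫ x in cap N ρ, g x * f x ∂sig ≤ - (ε₁ * c₀ / 8) * GN N ρ f := by
    unfold GN
    rw [← integral_const_mul]
    refine setIntegral_mono_on hint.integrableOn (hint2.integrableOn.const_mul _)
      (isClosed_cap N ρ).measurableSet fun x hx => ?_
    have hx' : 1 - ⟪(N : E5), (x : E5)⟫_ℝ ≤ ρ := hx
    have hu0 : 0 ≤ 1 - ⟪(N : E5), (x : E5)⟫_ℝ := by linarith [inner_le_one N x]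
    have hfar := far_of_cap hNw hρ2 hx'
    have hq1 := hp1 x (hx'.trans hρ1)
    have hq2 := hp2 x (w : E5)
    rw [S4_norm, mul_one] at hq2
    have hnx : ‖(x : E5) - (N : E5)‖ ≤ δ := by
      have e := norm_sub_sq_S4 N x
      rw [norm_sub_rev] at e
      refine le_of_sq_le_sq ?_ hδ0.le
      rw [e]
      linarith
    have hq3 : |dd ψ x (w : E5)| ≤ ε₁ * c₀ / 8 := by
      refine hq2.trans ((mul_le_mul_of_nonneg_left hnx hC₀.le).trans (le_of_eq ?_))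
      rw [hδ]
      field_simp
    have hgx : g x = - ((1 - ⟪(N : E5), (x : E5)⟫_ℝ) * dd ψ x (w : E5)) +
        (1 - ⟪(w : E5), (x : E5)⟫_ℝ) * dd ψ x (N : E5) := hy1 x
    have hgle : g x ≤ - (ε₁ * c₀ / 8) * (1 - ⟪(N : E5), (x : E5)⟫_ℝ) := by
      rw [hgx]
      set u := 1 - ⟪(N : E5), (x : E5)⟫_ℝ with hu
      set v := 1 - ⟪(w : E5), (x : E5)⟫_ℝ with hv
      have k1 : -(u * dd ψ x (w : E5)) ≤ u * (ε₁ * c₀ / 8) := by
        have := mul_le_mul_of_nonneg_left (abs_le.1 hq3).1 hu0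
        linarith
      have k2 : v * dd ψ x (N : E5) ≤ - ((ε₁ / 4) * (c₀ * u)) := by
        have h3 : ε₁ / 4 * (c₀ * u) ≤ v * (- dd ψ x (N : E5)) :=
          mul_le_mul hfar hq1 (by positivity) (le_trans (by positivity) hfar)
        linarith
      nlinarith
    calc g x * f x ≤ (- (ε₁ * c₀ / 8) * (1 - ⟪(N : E5), (x : E5)⟫_ℝ)) * f x :=
          mul_le_mul_of_nonneg_right hgle (hf0 x).le
      _ = - (ε₁ * c₀ / 8) * ((1 - ⟪(N : E5), (x : E5)⟫_ℝ) * f x) := by ring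
  -- the splitting
  have hsp := hS t f w lam ht1 hb a A hsk ha2 hA2
  have hsp1 := (abs_le.1 hsp).1
  have hXg1 := (abs_le.1 hXg).2
  have hlap := (abs_le.1 hy4).2
  have hI1 : ∫ x in cap w (1 / t), g x * f x ∂sig ≤
      c4 / 2 * κ ^ 2 * sphLaplacian g w + ε / 2 * (2 * γ * κ + κ ^ 2) := by linarith
  have hlap' : sphLaplacian g w ≤
      2 * (1 - ⟪(N : E5), (w : E5)⟫_ℝ) * sphLaplacian ψ w + 2 * γ := by
    have : sphLaplacian g w - 2 * (1 - ⟪(N : E5), (w : E5)⟫_ℝ) * sphLaplacian ψ w ≤ 2 * γ := hlap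
    linarith
  have hk : c4 / 2 * κ ^ 2 * sphLaplacian g w ≤ c4 / 2 * κ ^ 2 *
      (2 * (1 - ⟪(N : E5), (w : E5)⟫_ℝ) * sphLaplacian ψ w + 2 * γ) :=
    mul_le_mul_of_nonneg_left hlap' (by positivity)
  have hk2 : c4 * γ * κ ^ 2 ≤ ε / 2 * κ ^ 2 := mul_le_mul_of_nonneg_right hgr2 (sq_nonneg κ)
  have hsp2 : -(c₆ * GN N ρ f) ≤ (∫ x in cap w (1 / t), g x * f x ∂sig) +
      ∫ x in cap N ρ, g x * f x ∂sig := hsp1
  have hc6 : ε₁ * c₀ / 8 = 2 * c₆ := by rw [hc₆def]; ring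
  rw [hc6] at hGN
  nlinarith

end Pool.Agent.PQP.H98
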